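import Mathlib
import Pool.Agent.H875R3.Spc

/-!
There is a real normed space, of dimension twelve, whose simultaneous packing and covering
constant is strictly smaller than its lattice simultaneous packing and covering constant.
-/

set_option autoImplicit false

namespace Pool.Agent.Results.MP_78373f_an.LatticeGap

/-- A subset `P` of a normed space is `r`-separated: distinct points of `P` have distance at
least `r`. -/
def Separated {X : Type} [NormedAddCommGroup X] (r : ℝ) (P : Set X) : Prop :=
  ∀ x ∈ P, ∀ y ∈ P, x ≠ y → r ≤ ‖x - y‖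

/-- A subset `P` of a normed space is `r`-dense: every point of the space has distance at most
`r` from some point of `P`. -/
def RDense {X : Type} [NormedAddCommGroup X] (r : ℝ) (P : Set X) : Prop :=
  ∀ x : X, ∃ p ∈ P, ‖x - p‖ ≤ r

/-- The simultaneous packing and covering constant: the infimum of the `r > 0` for which some
subset of the space is `r`-dense and `2`-separated. -/
noncomputable def gamma (X : Type) [NormedAddCommGroup X] : ℝ :=
  sInf {r : ℝ | 0 < r ∧ ∃ P : Set X, RDense r P ∧ Separated 2 P}

/-- The lattice simultaneous packing and covering constant: the infimum of the `r > 0` for which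
some additive subgroup of the space is `r`-dense and `2`-separated. -/
noncomputable def gammaLattice (X : Type) [NormedAddCommGroup X] : ℝ :=
  sInf {r : ℝ | 0 < r ∧ ∃ P : AddSubgroup X, RDense r (P : Set X) ∧ Separated 2 (P : Set X)}

/-- There is a twelve dimensional real normed space `X` with `gamma X < gammaLattice X`. (All the
members of the two sets of radii are positive, so the strict inequality also shows that neither
set is empty.) -/
theorem result : ∃ (X : Type) (_ : NormedAddCommGroup X) (_ : NormedSpace ℝ X),
    Module.finrank ℝ X = 12 ∧ gamma X < gammaLattice X := by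
  obtain ⟨k, hk⟩ := Pool.Agent.H875R3.Spc.lower
  have he := Pool.Agent.H875R3.Spc.ep_pos k
  refine ⟨Pool.Agent.H875R3.Spc.Y k, inferInstance, inferInstance, ?_, ?_⟩
  · show Module.finrank ℝ (Fin 12 → ℝ) = 12
    simp
  · have h1 : gamma (Pool.Agent.H875R3.Spc.Y k) ≤
        (2 + 2 * Pool.Agent.H875R3.Spc.ep k) / (2 + Pool.Agent.H875R3.Spc.ep k) := by
      apply csInf_le ⟨0, fun r hr => hr.1.le⟩
      obtain ⟨P, hP1, hP2⟩ := Pool.Agent.H875R3.Spc.upper k
      exact ⟨by positivity, P, hP2, hP1⟩
    have h2 : 1 + 3 / 4 * Pool.Agent.H875R3.Spc.ep k ≤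
        gammaLattice (Pool.Agent.H875R3.Spc.Y k) := by
      apply le_csInf
      · obtain ⟨P, hP1, hP2⟩ := Pool.Agent.H875R3.Spc.lattice_exists k
        exact ⟨_, by positivity, P, hP2, hP1⟩
      · rintro r ⟨-, P, hP1, hP2⟩
        exact hk P r hP2 hP1
    have h3 : (2 + 2 * Pool.Agent.H875R3.Spc.ep k) / (2 + Pool.Agent.H875R3.Spc.ep k) <
        1 + 3 / 4 * Pool.Agent.H875R3.Spc.ep k := by
      rw [div_lt_iff₀ (by positivity)]
      nlinarith [mul_pos he he]
    exact lt_of_le_of_lt h1 (lt_of_lt_of_le h3 h2)

end Pool.Agent.Results.MP_78373f_an.LatticeGap
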